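import Pool.Agent.helper23.F2.Spec

set_option autoImplicit false

open scoped BigOperators

namespace Pool.Agent.F2

open Pool.Agent.helper23.TH

theorem CL8_mem {α : Type} (p : α → Prop) (d : DecidablePred p) (s : Finset α) (a : α) :
    a ∈ @Finset.filter α p d s ↔ a ∈ s ∧ p a := Finset.mem_filter

theorem CL8 (hCL4 : CL4_stmt) (hCL5 : CL5_stmt) (hCL6 : CL6_stmt) (hCL7 : CL7_stmt) : CL8_stmt := by
  classical
  intro t b s κ C hκ hC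
  have hcard : 0 < Fintype.card (Ob (t + 2)) := Fintype.card_pos_iff.2 ⟨.inl 0⟩
  obtain ⟨K5, hK5⟩ : ∃ K : ℕ, K = Fintype.card (Ob (t + 2)) ^ (b * Fintype.card (Ob (t + 2))) := ⟨_, rfl⟩
  have hK0 : 0 < K5 := by
    rw [hK5]
    exact pow_pos hcard _
  have hK0' : (0 : ℝ) < K5 := by exact_mod_cast hK0
  have hκ0 : 0 < κ := by linarith
  obtain ⟨C', hC'⟩ : ∃ C' : ℝ, C' = 2 * (2 * t + 3) * b * s * C := ⟨_, rfl⟩
  have hC'0 : 0 ≤ C' := by rw [hC']; positivity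
  obtain ⟨β, hβ⟩ : ∃ β : ℝ, β = C' * κ ^ (t + 2) * 2 ^ (t + 2) * K5 + 1 := ⟨_, rfl⟩
  have hβ0 : 0 < β := by rw [hβ]; positivity
  refine ⟨⌈8 * β⌉₊, 1 / (2 ^ (t + 2) * K5 * 4), 2 * ((b : ℝ) * (2 * ((t + 2 : ℕ) : ℝ) + 1) * s) + 1,
    Nat.ceil_pos.2 (by positivity), by positivity, by positivity, ?_⟩
  intro V L _ _ G D hV hT hReg hD hh'
  have hDpos : 0 < D := by
    have : (0 : ℝ) ≤ 2 * ((b : ℝ) * (2 * ((t + 2 : ℕ) : ℝ) + 1) * s) := by positivity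
    linarith
  have hN : (0 : ℝ) < Fintype.card V := by exact_mod_cast hV
  have h4 := hCL4 V L b s G (t + 2) D hT (fun v => (hReg v).1) (by linarith)
  obtain ⟨S₀, hm₀, h4'⟩ : ∃ S₀ : Finset (Fin (t + 3) → V),
      (∀ P, P ∈ S₀ ↔ Wk G.A (t + 2) P ∧ G.Cln P) ∧
      (Fintype.card V : ℝ) * (D / 2) ^ (t + 2) ≤ (S₀.card : ℝ) :=
    ⟨_, fun P => (CL8_mem _ _ _ _).trans ⟨fun h => h.2, fun h => ⟨Finset.mem_univ _, h⟩⟩, h4⟩
  have hob : ∀ P ∈ S₀, (∀ o, (G.obj P o).card ≤ b) ∧ ∀ o o', o ≠ o' → Disjoint (G.obj P o) (G.obj P o') := by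
    intro P hP
    refine ⟨?_, ((hm₀ P).1 hP).2⟩
    rintro (i | j)
    · exact G.bv _
    · exact G.be _ _
  obtain ⟨ρ, hρ⟩ := hCL5 (Fin (t + 3) → V) (Ob (t + 2)) L S₀ (fun P o => G.obj P o) b hcard hob
  rw [← hK5] at hρ
  obtain ⟨S₁, hm₁', hρ'⟩ : ∃ S₁ : Finset (Fin (t + 3) → V),
      (∀ P, P ∈ S₁ ↔ P ∈ S₀ ∧ ∀ o, ∀ z ∈ G.obj P o, ρ z = o) ∧ S₀.card ≤ K5 * S₁.card :=
    ⟨_, fun P => CL8_mem _ _ _ _, hρ⟩
  have hm₁ : ∀ P, P ∈ S₁ ↔ (Wk G.A (t + 2) P ∧ G.Cln P) ∧ ∀ o, ∀ z ∈ G.obj P o, ρ z = o := by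
    intro P
    rw [hm₁', hm₀]
  have h5 : (Fintype.card V : ℝ) * (D / 2) ^ (t + 2) ≤ K5 * (S₁.card : ℝ) := by
    refine h4'.trans ?_
    exact_mod_cast hρ'
  have hS1pos : (0 : ℝ) < S₁.card := by
    have h6 : (0 : ℝ) < (Fintype.card V : ℝ) * (D / 2) ^ (t + 2) := by positivity
    by_contra h7
    have h8 : (S₁.card : ℝ) = 0 := le_antisymm (not_lt.1 h7) (Nat.cast_nonneg _)
    rw [h8, mul_zero] at h5
    linarith
  have hne : S₁.Nonempty := by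
    rw [← Finset.card_pos]
    exact_mod_cast hS1pos
  have h6 := hCL6 V L b s G (κ * D) t (by positivity) (fun v => (hReg v).2)
  obtain ⟨S₆, hm₆, h6'⟩ : ∃ S₆ : Finset ((Fin (t + 3) → V) × (Fin (t + 3) → V)),
      (∀ q, q ∈ S₆ ↔ Wk G.A (t + 2) q.1 ∧ Wk G.A (t + 2) q.2 ∧ (G.B1 q.1 q.2 ∨ G.B2 q.1 q.2)) ∧
      (S₆.card : ℝ) ≤ 2 * (2 * t + 3) * b * s * (κ * D) ^ 2 * hh G.A t :=
    ⟨_, fun q => (CL8_mem _ _ _ _).trans ⟨fun h => h.2, fun h => ⟨Finset.mem_univ _, h⟩⟩, h6⟩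
  have h7 : (S₆.card : ℝ) ≤ β * S₁.card := by
    have e2 : 2 * (2 * t + 3) * b * s * (κ * D) ^ 2 * hh G.A t ≤
        2 * (2 * t + 3) * b * s * (κ * D) ^ 2 * (C * Fintype.card V * (κ * D) ^ t) := by
      refine mul_le_mul_of_nonneg_left hh' ?_
      positivity
    have e3 : 2 * (2 * t + 3) * b * s * (κ * D) ^ 2 * (C * Fintype.card V * (κ * D) ^ t) =
        C' * κ ^ (t + 2) * 2 ^ (t + 2) * ((Fintype.card V : ℝ) * (D / 2) ^ (t + 2)) := by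
      have e6 : (2 : ℝ) ^ (t + 2) * (D / 2) ^ (t + 2) = D ^ (t + 2) := by
        rw [← mul_pow]
        congr 1
        ring
      have e7 : C' * κ ^ (t + 2) * 2 ^ (t + 2) * ((Fintype.card V : ℝ) * (D / 2) ^ (t + 2)) =
          C' * κ ^ (t + 2) * (Fintype.card V : ℝ) * ((2 : ℝ) ^ (t + 2) * (D / 2) ^ (t + 2)) := by ring
      rw [e7, e6, hC']
      ring
    have e4 : C' * κ ^ (t + 2) * 2 ^ (t + 2) * ((Fintype.card V : ℝ) * (D / 2) ^ (t + 2)) ≤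
        C' * κ ^ (t + 2) * 2 ^ (t + 2) * (K5 * (S₁.card : ℝ)) := by
      refine mul_le_mul_of_nonneg_left h5 ?_
      positivity
    have e5 : C' * κ ^ (t + 2) * 2 ^ (t + 2) * (K5 * (S₁.card : ℝ)) ≤ β * S₁.card := by
      rw [hβ, add_mul, one_mul]
      have : C' * κ ^ (t + 2) * 2 ^ (t + 2) * (K5 * (S₁.card : ℝ)) =
          C' * κ ^ (t + 2) * 2 ^ (t + 2) * K5 * (S₁.card : ℝ) := by ring
      rw [this]
      linarith
    linarith [h6', e2, e3, e4, e5]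
  obtain ⟨⟨m, m'⟩, S', hS'1, hS'2, hS'3, hS'4⟩ := hCL7 (Fin (t + 3) → V) (V × V) S₁
    (fun P => (P 0, P (Fin.last (t + 2)))) (fun P Q => G.B1 P Q ∨ G.B2 P Q) β hβ0 hne (by
      rintro P Q (h | h)
      · exact Prod.ext h.1 h.2.2.1
      · obtain ⟨a1, -, a3, -⟩ := h
        have a1' : P (Fin.last (t + 2)) = Q (Fin.last (t + 2)) := by
          simpa using a1
        have a3' : P 0 = Q 0 := by
          simpa using a3
        exact Prod.ext a3' a1') (by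
      refine le_trans (Nat.cast_le.2 (Finset.card_le_card fun p hp => ?_)) h7
      replace hp := (CL8_mem _ _ _ _).1 hp
      rw [Finset.mem_product] at hp
      exact (hm₆ p).2 ⟨((hm₁ _).1 hp.1.1).1.1, ((hm₁ _).1 hp.1.2).1.1, hp.2⟩)
  refine ⟨m, m', ρ, S', ⟨?_, ?_, ?_, ?_, ?_⟩, ?_⟩
  · intro P hP
    exact ((hm₁ _).1 (hS'1 hP)).1.1
  · intro P hP
    exact congrArg Prod.fst (hS'2 P hP)
  · intro P hP
    exact congrArg Prod.snd (hS'2 P hP)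
  · intro P hP
    exact ((hm₁ _).1 (hS'1 hP)).2
  · intro P hP
    have h8 := (hS'4 P hP).trans (Nat.le_ceil (8 * β))
    refine le_trans (Finset.card_le_card fun Q hQ => ?_) (Nat.cast_le.1 h8)
    exact (CL8_mem _ _ _ _).2 ((CL8_mem _ _ _ _).1 hQ)
  · rw [Fintype.card_prod] at hS'3
    have h10 : (S₁.card : ℝ) ≤ 4 * ((Fintype.card V : ℝ) * Fintype.card V) * S'.card := by
      exact_mod_cast hS'3
    have h11 : (Fintype.card V : ℝ) * (D / 2) ^ (t + 2) ≤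
        K5 * (4 * ((Fintype.card V : ℝ) * Fintype.card V) * S'.card) :=
      h5.trans (mul_le_mul_of_nonneg_left h10 hK0'.le)
    have h12 : (D / 2) ^ (t + 2) ≤ K5 * (4 * (Fintype.card V : ℝ) * S'.card) := by
      refine le_of_mul_le_mul_left ?_ hN
      refine h11.trans (le_of_eq ?_)
      ring
    rw [div_pow, div_le_iff₀ (by positivity)] at h12
    rw [one_div, inv_mul_le_iff₀ (by positivity)]
    refine h12.trans (le_of_eq ?_)
    ring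

end Pool.Agent.F2
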